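import Pool.Agent.Q199.SY.Stm

/-! Project SY of helper199 (MP_2e62d5_co), job GAM (helper151). -/

open MeasureTheory ProbabilityTheory Set
open scoped ENNReal

namespace Pool.Agent.Q151.SY

open Pool.Agent.Q199.SY

/-- the operator `(P φ) M = ν (y ↦ φ (M + y))` -/
def op (ν : (ℕ → ℝ) → ℝ) (φ : ℕ → ℝ) : ℕ → ℝ := fun M => ν (fun y => φ (M + y))

theorem op_bd {ν : (ℕ → ℝ) → ℝ} (h : IsMean ν) {φ : ℕ → ℝ} (hφ : Bd φ) : Bd (op ν φ) := by
  obtain ⟨C, hC⟩ := hφ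
  exact ⟨C, fun M => h.abs_le fun y => hC _⟩

theorem iter_bd {ν : (ℕ → ℝ) → ℝ} (h : IsMean ν) {φ : ℕ → ℝ} (hφ : Bd φ) (ℓ : ℕ) :
    Bd ((op ν)^[ℓ] φ) := by
  induction ℓ with
  | zero => exact hφ
  | succ ℓ ih =>
    rw [Function.iterate_succ_apply']
    exact op_bd h ih

theorem it_eq {ν : (ℕ → ℝ) → ℝ} (h : IsMean ν)
    (hd : ∀ m : ℕ, 1 ≤ m → ∀ φ : ℕ → ℝ, Bd φ → ν (fun x => φ (m * x)) = ν φ) {φ : ℕ → ℝ}
    (hφ : Bd φ) (ℓ : ℕ) : ∀ γ : ℕ, 1 ≤ γ →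
    it ν ℓ (fun w => φ (γ * wt w)) = (op ν)^[ℓ] φ γ := by
  induction ℓ with
  | zero =>
    intro γ _
    show φ (γ * wt []) = φ γ
    simp [wt]
  | succ ℓ ih =>
    intro γ hγ
    rw [Function.iterate_succ_apply']
    show ν (fun x => it ν ℓ (fun w => φ (γ * wt (x :: w)))) = ν (fun y => (op ν)^[ℓ] φ (γ + y))
    have h1 : (fun x => it ν ℓ (fun w => φ (γ * wt (x :: w)))) =
        fun x => (fun y => (op ν)^[ℓ] φ (γ + y)) (γ * x) := by
      funext x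
      have h2 : (fun w => φ (γ * wt (x :: w))) = fun w => φ ((γ + γ * x) * wt w) := by
        funext w
        have h3 : wt (x :: w) = (x + 1) * wt w := by simp [wt]
        rw [h3]
        congr 1
        ring
      rw [h2]
      exact ih (γ + γ * x) (by omega)
    rw [h1]
    obtain ⟨C, hC⟩ := iter_bd h hφ ℓ
    exact hd γ hγ (fun y => (op ν)^[ℓ] φ (γ + y)) ⟨C, fun y => hC _⟩

theorem sum_mean {ν : (ℕ → ℝ) → ℝ} (h : IsMean ν) {F : ℕ → ℕ → ℝ} (hF : ∀ s, Bd (F s)) (n : ℕ) :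
    ν (fun y => ∑ s ∈ Finset.range n, F s y) = ∑ s ∈ Finset.range n, ν (F s) ∧
      Bd (fun y => ∑ s ∈ Finset.range n, F s y) := by
  induction n with
  | zero =>
    simp only [Finset.range_zero, Finset.sum_empty]
    exact ⟨h.const 0, Bd.const 0⟩
  | succ n ih =>
    simp only [Finset.sum_range_succ]
    refine ⟨?_, ih.2.add (hF n)⟩
    rw [h.add _ _ ih.2 (hF n), ih.1]

theorem t_gam : S_gam := by
  intro ν h hd S L hS ℓ
  obtain ⟨φ, hφd⟩ : ∃ φ : ℕ → ℝ, φ = S.indicator (fun _ => (1 : ℝ)) := ⟨_, rfl⟩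
  have hφ01 : ∀ x, 0 ≤ φ x ∧ φ x ≤ 1 := by
    intro x
    rw [hφd]
    by_cases hx : x ∈ S
    · rw [Set.indicator_of_mem hx]
      exact ⟨zero_le_one, le_rfl⟩
    · rw [Set.indicator_of_notMem hx]
      exact ⟨le_rfl, zero_le_one⟩
  have hφ : Bd φ := Bd.of01 hφ01
  have hbase : ∀ n, 1 ≤ n → 1 ≤ ∑ s ∈ Finset.range (L + 1), φ (n + s) := by
    intro n hn
    obtain ⟨s, hsS, hns, hsL⟩ := hS n hn
    obtain ⟨d, rfl⟩ := Nat.exists_eq_add_of_le hns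
    have h1 : φ (n + d) ≤ ∑ s ∈ Finset.range (L + 1), φ (n + s) :=
      Finset.single_le_sum (f := fun s => φ (n + s)) (fun s _ => (hφ01 _).1)
        (Finset.mem_range.2 (by omega))
    have h2 : φ (n + d) = 1 := by
      rw [hφd, Set.indicator_of_mem hsS]
    linarith
  have hstep : ∀ ψ : ℕ → ℝ, Bd ψ → (∀ n, 1 ≤ n → 1 ≤ ∑ s ∈ Finset.range (L + 1), ψ (n + s)) →
      ∀ n, 1 ≤ n → 1 ≤ ∑ s ∈ Finset.range (L + 1), op ν ψ (n + s) := by
    intro ψ hψ hψs n hn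
    obtain ⟨C, hC⟩ := hψ
    have hF : ∀ s, Bd (fun y => ψ (n + s + y)) := fun s => ⟨C, fun y => hC _⟩
    obtain ⟨h1, h2⟩ := sum_mean h hF (L + 1)
    have h3 : ∑ s ∈ Finset.range (L + 1), op ν ψ (n + s) =
        ν (fun y => ∑ s ∈ Finset.range (L + 1), ψ (n + s + y)) := h1.symm
    rw [h3, ← h.one]
    refine h.mono _ _ (Bd.const 1) h2 fun y => ?_
    have h4 := hψs (n + y) (by omega)
    refine h4.trans (le_of_eq ?_)
    refine Finset.sum_congr rfl fun s _ => ?_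
    congr 1
    ring
  have hall : ∀ n, 1 ≤ n → 1 ≤ ∑ s ∈ Finset.range (L + 1), (op ν)^[ℓ] φ (n + s) := by
    induction ℓ with
    | zero => exact hbase
    | succ ℓ ih =>
      rw [Function.iterate_succ_apply']
      exact hstep _ (iter_bd h hφ ℓ) ih
  by_contra hcon
  push Not at hcon
  have h1 := hall 1 le_rfl
  have h2 : ∀ s ∈ Finset.range (L + 1), ((L : ℝ) + 1) * (op ν)^[ℓ] φ (1 + s) < 1 := by
    intro s _
    have h3 := hcon (1 + s) (by omega)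
    rw [← hφd, it_eq h hd hφ ℓ (1 + s) (by omega)] at h3
    exact h3
  have h3 : ∑ s ∈ Finset.range (L + 1), ((L : ℝ) + 1) * (op ν)^[ℓ] φ (1 + s) <
      ∑ s ∈ Finset.range (L + 1), (1 : ℝ) :=
    Finset.sum_lt_sum_of_nonempty ⟨0, Finset.mem_range.2 (by omega)⟩ h2
  rw [← Finset.mul_sum, Finset.sum_const, Finset.card_range, nsmul_eq_mul, mul_one] at h3
  push_cast at h3
  have h4 : (0 : ℝ) < (L : ℝ) + 1 := by positivity
  have h5 : (L : ℝ) + 1 ≤ ((L : ℝ) + 1) * ∑ s ∈ Finset.range (L + 1), (op ν)^[ℓ] φ (1 + s) :=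
    le_mul_of_one_le_right h4.le h1
  linarith

end Pool.Agent.Q151.SY
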