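import Pool.Agent.Q199.SY.Stm

/-! Project SY of helper199 (MP_2e62d5_co), job IND (helper151). -/

open MeasureTheory ProbabilityTheory Set
open scoped ENNReal

namespace Pool.Agent.Q151.SY

open Pool.Agent.Q199.SY

/-- the sigma algebra of one coordinate -/
def mc (c : ℕ × ℕ) : MeasurableSpace Om := MeasurableSpace.comap (fun ω : Om => ω c) inferInstance

theorem comap_le (A : Set (ℕ × ℕ)) (α : Type) [mα : MeasurableSpace α] (g : Om → α)
    (hg : Measurable g) (hA : ∀ ω ω' : Om, (∀ c ∈ A, ω c = ω' c) → g ω = g ω') :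
    MeasurableSpace.comap g mα ≤ ⨆ c ∈ A, mc c := by
  classical
  obtain ⟨ρ, hρ⟩ : ∃ ρ : Om → Om, ρ = fun ω c => if c ∈ A then ω c else 0 := ⟨_, rfl⟩
  have hgρ : g = g ∘ ρ := by
    funext ω
    refine hA _ _ fun c hc => ?_
    rw [hρ]
    show ω c = if c ∈ A then ω c else 0
    rw [if_pos hc]
  have hρm : @Measurable Om Om (⨆ c ∈ A, mc c) _ ρ := by
    refine @measurable_pi_lambda _ _ _ (⨆ c ∈ A, mc c) _ _ fun c => ?_
    by_cases hc : c ∈ A
    · have h1 : (fun ω => ρ ω c) = fun ω : Om => ω c := by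
        funext ω
        rw [hρ]
        show (if c ∈ A then ω c else 0) = ω c
        rw [if_pos hc]
      rw [h1]
      have h2 : mc c ≤ ⨆ c ∈ A, mc c := le_iSup₂ (f := fun c _ => mc c) c hc
      exact (comap_measurable (fun ω : Om => ω c)).mono h2 le_rfl
    · have h1 : (fun ω => ρ ω c) = fun ω : Om => (0 : unitInterval) := by
        funext ω
        rw [hρ]
        show (if c ∈ A then ω c else 0) = 0
        rw [if_neg hc]
      rw [h1]
      exact measurable_const
  rw [hgρ]
  have h3 : @Measurable Om α (⨆ c ∈ A, mc c) mα (g ∘ ρ) := hg.comp hρm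
  exact h3.comap_le

theorem t_ind : S_ind := by
  intro A B hAB α β mα mβ g h hg hh hA hB
  have hiI : iIndepFun (fun (c : ℕ × ℕ) (ω : Om) => ω c) PP :=
    iIndepFun_infinitePi (P := fun _ : ℕ × ℕ => (volume : Measure unitInterval))
      (X := fun _ x => x) fun _ => measurable_id
  have h1 : Indep (⨆ c ∈ A, mc c) (⨆ c ∈ B, mc c) PP :=
    indep_iSup_of_disjoint (fun c => (measurable_pi_apply c).comap_le) hiI hAB
  have h2 : IndepFun g h PP :=
    indep_of_indep_of_le_left (indep_of_indep_of_le_right h1 (comap_le B β h hh hB))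
      (comap_le A α g hg hA)
  exact (indepFun_iff_map_prod_eq_prod_map_map hg.aemeasurable hh.aemeasurable).1 h2

end Pool.Agent.Q151.SY
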