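import Pool.Agent.Q199.SY.Stm

/-! Project SY of helper199 (MP_2e62d5_co), job LAW (helper151). -/

open MeasureTheory ProbabilityTheory Set
open scoped ENNReal

namespace Pool.Agent.Q151.SY

open Pool.Agent.Q199.SY

theorem bd_cont (ν : (ℕ → ℝ) → ℝ) (f : List ℕ → ℝ) (F : C(K, ℝ)) :
    Bd (fun w => F (ty ν f w)) :=
  ⟨‖F‖, fun w => by
    rw [← Real.norm_eq_abs]
    exact F.norm_coe_le_norm _⟩

/-- the positive functional -/
noncomputable def fnl (ν : (ℕ → ℝ) → ℝ) (h : IsMean ν) (f : List ℕ → ℝ) (k : ℕ) :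
    CompactlySupportedContinuousMap K ℝ →ₚ[ℝ] ℝ where
  toFun F := it ν k (fun w => F (ty ν f w))
  map_add' F G := by
    exact it_add h k (bd_cont ν f F.toContinuousMap) (bd_cont ν f G.toContinuousMap)
  map_smul' c F := by
    exact it_smul h c k (bd_cont ν f F.toContinuousMap)
  monotone' F G hFG := by
    exact it_mono h k (bd_cont ν f F.toContinuousMap) (bd_cont ν f G.toContinuousMap)
      (fun w _ => hFG _)

theorem t_law : S_law := by
  intro ν h f _
  have hint : ∀ (k : ℕ) (F : C(K, ℝ)), ∫ z, F z ∂(RealRMK.rieszMeasure (fnl ν h f k)) =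
      it ν k (fun w => F (ty ν f w)) := by
    intro k F
    exact RealRMK.integral_rieszMeasure (fnl ν h f k)
      (CompactlySupportedContinuousMap.continuousMapEquiv F)
  refine ⟨fun k => RealRMK.rieszMeasure (fnl ν h f k), ⟨fun k => ⟨?_⟩, hint⟩⟩
  have h1 := hint k 1
  simp only [ContinuousMap.one_apply] at h1
  rw [it_const h, integral_const, smul_eq_mul, mul_one, Measure.real,
    ENNReal.toReal_eq_one_iff] at h1
  exact h1

end Pool.Agent.Q151.SY
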