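import Pool.Agent.Q199.SY.Stm

/-! Project SY of helper199 (MP_2e62d5_co), job PRD (helper151). -/

open MeasureTheory ProbabilityTheory Set
open scoped ENNReal

namespace Pool.Agent.Q151.SY

open Pool.Agent.Q199.SY

theorem isClosed_good : IsClosed {z : K | Good z} := by
  have h1 : {z : K | Good z} = {z : K | (z .one : ℝ) = 1} ∩
      ⋂ s : Tm, ⋂ t : Tm, {z : K | (z (.mul s t) : ℝ) = (z s : ℝ) * (z t : ℝ)} := by
    ext z
    simp only [Good, Set.mem_ofPred_eq, Set.mem_inter_iff, Set.mem_iInter]
  rw [h1]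
  refine IsClosed.inter (isClosed_eq (by fun_prop) continuous_const) ?_
  refine isClosed_iInter fun s => isClosed_iInter fun t => ?_
  exact isClosed_eq (by fun_prop) (by fun_prop)

theorem good_ae (hzer : S_zer) {ν : (ℕ → ℝ) → ℝ} (h : IsMean ν) {f : List ℕ → ℝ}
    {m : ℕ → Measure K} (hf : ∀ w, 0 ≤ f w ∧ f w ≤ 1) (hm : Laws ν f m) (k : ℕ) :
    ∀ᵐ z ∂(m k), Good z := by
  have h1 : ∀ᵐ z ∂(m k), ((z .one : ℝ) - 1) ^ 2 = 0 := by
    refine hzer ν h f m hm k (fun z => ((z .one : ℝ) - 1) ^ 2) (by fun_prop)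
      (fun z => sq_nonneg _) ?_
    intro w _
    have h2 : (ty ν f w .one : ℝ) = 1 := ty_val h hf _ _
    show ((ty ν f w .one : ℝ) - 1) ^ 2 = 0
    rw [h2]
    norm_num
  have h3 : ∀ s t : Tm, ∀ᵐ z ∂(m k), ((z (.mul s t) : ℝ) - (z s : ℝ) * (z t : ℝ)) ^ 2 = 0 := by
    intro s t
    refine hzer ν h f m hm k (fun z => ((z (.mul s t) : ℝ) - (z s : ℝ) * (z t : ℝ)) ^ 2)
      (by fun_prop) (fun z => sq_nonneg _) ?_
    intro w _
    show ((ty ν f w (.mul s t) : ℝ) - (ty ν f w s : ℝ) * (ty ν f w t : ℝ)) ^ 2 = 0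
    rw [ty_val h hf, ty_val h hf, ty_val h hf]
    have h4 : ev ν f (.mul s t) w = ev ν f s w * ev ν f t w := rfl
    rw [h4, sub_self]
    norm_num
  have h5 : ∀ᵐ z ∂(m k), ∀ s t : Tm, ((z (.mul s t) : ℝ) - (z s : ℝ) * (z t : ℝ)) ^ 2 = 0 := by
    rw [ae_all_iff]
    intro s
    rw [ae_all_iff]
    exact h3 s
  filter_upwards [h1, h5] with z hz hz'
  refine ⟨?_, fun s t => ?_⟩
  · have := pow_eq_zero_iff (two_ne_zero) |>.1 hz
    linarith
  · have := pow_eq_zero_iff (two_ne_zero) |>.1 (hz' s t)
    linarith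

theorem map_iter {g : K → K} (hg : Measurable g) {m : ℕ → Measure K}
    (h : ∀ k, (m (k + 1)).map g = m k) (k j : ℕ) : (m (k + j)).map g^[j] = m k := by
  induction j with
  | zero =>
    rw [Function.iterate_zero, add_zero, Measure.map_id]
  | succ j ih =>
    rw [Function.iterate_succ, ← Measure.map_map (hg.iterate j) hg, ← add_assoc, h, ih]

theorem t_prd : S_zer → S_map → S_mom → S_prd := by
  intro hzer hmap hmom ν h f m hf hm k j
  obtain ⟨hpre, hsuf, -⟩ := hmap ν h f m hm
  have hp : ∀ k, IsProbabilityMeasure (m k) := hm.prob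
  have mpre : Measurable preK := continuous_preK.measurable
  have msuf : Measurable sufK := continuous_sufK.measurable
  have hD : Measurable (fun z : K => (preK^[j] z, sufK^[k] z)) :=
    (mpre.iterate _).prodMk (msuf.iterate _)
  have hmp : IsProbabilityMeasure ((m (k + j)).map (fun z => (preK^[j] z, sufK^[k] z))) :=
    Measure.isProbabilityMeasure_map hD.aemeasurable
  have hk : (m (k + j)).map preK^[j] = m k := map_iter mpre hpre k j
  have hj : (m (k + j)).map sufK^[k] = m j := by
    rw [add_comm]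
    exact map_iter msuf hsuf j k
  have hgood := fun i => good_ae hzer h hf hm i
  have hmG : MeasurableSet {p : K × K | Good p.1 ∧ Good p.2} := by
    have h1 : {p : K × K | Good p.1 ∧ Good p.2} =
        (Prod.fst ⁻¹' {z : K | Good z}) ∩ (Prod.snd ⁻¹' {z : K | Good z}) := rfl
    rw [h1]
    exact (measurable_fst isClosed_good.measurableSet).inter
      (measurable_snd isClosed_good.measurableSet)
  refine hmom _ _ ?_ ?_ ?_
  · rw [ae_map_iff hD.aemeasurable hmG]
    have h1 : ∀ᵐ z ∂(m (k + j)), Good (preK^[j] z) := by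
      refine ae_of_ae_map (mpre.iterate j).aemeasurable ?_
      rw [hk]
      exact hgood k
    have h2 : ∀ᵐ z ∂(m (k + j)), Good (sufK^[k] z) := by
      refine ae_of_ae_map (msuf.iterate k).aemeasurable ?_
      rw [hj]
      exact hgood j
    filter_upwards [h1, h2] with z hz hz'
    exact ⟨hz, hz'⟩
  · have h1 : ∀ᵐ p ∂((m k).prod (m j)), Good p.1 :=
      Measure.quasiMeasurePreserving_fst.ae (hgood k)
    have h2 : ∀ᵐ p ∂((m k).prod (m j)), Good p.2 :=
      Measure.quasiMeasurePreserving_snd.ae (hgood j)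
    filter_upwards [h1, h2] with z hz hz'
    exact ⟨hz, hz'⟩
  · intro s t
    have hbd : ∀ (t : Tm), Bd (ev ν f t) := fun t => Bd.of01 fun w => ev_mem h hf t w
    have hone : ∀ (i : ℕ) (t : Tm), ∫ z, (z t : ℝ) ∂(m i) = it ν i (ev ν f t) := by
      intro i t
      have h1 := hm.int i ⟨fun z => (z t : ℝ), by fun_prop⟩
      simp only [ContinuousMap.coe_mk] at h1
      rw [h1]
      congr 1
      funext w
      exact ty_val h hf t w
    have hcont : Continuous fun z : K => ((preK^[j] z) s : ℝ) * ((sufK^[k] z) t : ℝ) := by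
      have h1 : Continuous preK^[j] := continuous_preK.iterate j
      have h2 : Continuous sufK^[k] := continuous_sufK.iterate k
      have h3 : Continuous fun z : K => ((preK^[j] z) s : ℝ) :=
        continuous_subtype_val.comp ((continuous_apply s).comp h1)
      have h4 : Continuous fun z : K => ((sufK^[k] z) t : ℝ) :=
        continuous_subtype_val.comp ((continuous_apply t).comp h2)
      exact h3.mul h4
    have hL : ∫ p, (p.1 s : ℝ) * (p.2 t : ℝ) ∂((m (k + j)).map (fun z => (preK^[j] z, sufK^[k] z))) =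
        it ν k (ev ν f s) * it ν j (ev ν f t) := by
      rw [integral_map hD.aemeasurable]
      · have h1 := hm.int (k + j) ⟨_, hcont⟩
        simp only [ContinuousMap.coe_mk] at h1
        show ∫ z, ((preK^[j] z) s : ℝ) * ((sufK^[k] z) t : ℝ) ∂(m (k + j)) = _
        rw [h1, it_split]
        have h2 : it ν k (fun u => it ν j (fun v =>
            ((preK^[j] (ty ν f (u ++ v))) s : ℝ) * ((sufK^[k] (ty ν f (u ++ v))) t : ℝ))) =
            it ν k (fun u => it ν j (ev ν f t) * ev ν f s u) := by
          refine it_congr k fun u hu => ?_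
          rw [mul_comm, ← it_smul h _ j (hbd t)]
          refine it_congr j fun v hv => ?_
          rw [preK_iter_ty, sufK_iter_ty, ty_val h hf, ty_val h hf, ← hv, dropLast_iter, ← hu,
            tail_iter]
        rw [h2, it_smul h _ k (hbd s), mul_comm]
      · refine Measurable.aestronglyMeasurable ?_
        have h1 : Measurable fun p : K × K => (p.1 s : ℝ) :=
          measurable_subtype_coe.comp ((measurable_pi_apply s).comp measurable_fst)
        have h2 : Measurable fun p : K × K => (p.2 t : ℝ) :=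
          measurable_subtype_coe.comp ((measurable_pi_apply t).comp measurable_snd)
        exact h1.mul h2
    rw [hL, integral_prod_mul (fun z : K => (z s : ℝ)) (fun z : K => (z t : ℝ)), hone, hone]

end Pool.Agent.Q151.SY
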