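import Pool.Agent.Q199.SY.Stm

/-! Project SY of helper199 (MP_2e62d5_co), jobs TRI and PSI (helper151). -/

open MeasureTheory ProbabilityTheory Set
open scoped ENNReal

namespace Pool.Agent.Q151.SY

open Pool.Agent.Q199.SY

theorem yr_meas {X : Type} [MeasurableSpace X] {Φ : ℕ → X × X → unitInterval → X}
    (hΦ : ∀ k, Measurable (Function.uncurry (Φ k))) (o : X) (ℓ : ℕ) :
    ∀ k i, Measurable (Yr Φ o ℓ k i)
  | 0, i => measurable_const
  | k + 1, i => by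
      have h1 := yr_meas hΦ o ℓ k i
      have h2 := yr_meas hΦ o ℓ k (i + 1)
      exact (hΦ k).comp ((h1.prodMk h2).prodMk (measurable_pi_apply (i % ℓ, k)))

theorem yr_dep {X : Type} (Φ : ℕ → X × X → unitInterval → X) (o : X) (ℓ : ℕ) :
    ∀ (k i : ℕ) (ω ω' : Om), (∀ c : ℕ × ℕ, c.2 < k → ω c = ω' c) → Yr Φ o ℓ k i ω = Yr Φ o ℓ k i ω'
  | 0, i, ω, ω', _ => rfl
  | k + 1, i, ω, ω', h => by
      have h1 := yr_dep Φ o ℓ k i ω ω' fun c hc => h c (by omega)
      have h2 := yr_dep Φ o ℓ k (i + 1) ω ω' fun c hc => h c (by omega)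
      have h3 := h (i % ℓ, k) (by simp)
      show Φ k (Yr Φ o ℓ k i ω, Yr Φ o ℓ k (i + 1) ω) (ω (i % ℓ, k)) =
        Φ k (Yr Φ o ℓ k i ω', Yr Φ o ℓ k (i + 1) ω') (ω' (i % ℓ, k))
      rw [h1, h2, h3]

theorem t_tri : S_ind → S_tri := by
  intro hind X _ _ _ m pre suf o Φ h hD ℓ k hl hpair i
  have hp : ∀ k, IsProbabilityMeasure (m k) := h.prob
  have hYm := yr_meas hD.meas o ℓ
  obtain ⟨g, hg⟩ : ∃ g : Om → X × X, g = fun ω => (Yr Φ o ℓ k i ω, Yr Φ o ℓ k (i + 1) ω) := ⟨_, rfl⟩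
  have hgm : Measurable g := by
    rw [hg]
    exact (hYm k i).prodMk (hYm k (i + 1))
  have h1 := hind {c : ℕ × ℕ | c.2 < k} {(i % ℓ, k)} (by
      rw [Set.disjoint_singleton_right]
      show ¬ (k < k)
      exact lt_irrefl k) (X × X) unitInterval g (fun ω => ω (i % ℓ, k)) hgm
    (measurable_pi_apply _) (by
      intro ω ω' hω
      rw [hg]
      show (Yr Φ o ℓ k i ω, Yr Φ o ℓ k (i + 1) ω) = (Yr Φ o ℓ k i ω', Yr Φ o ℓ k (i + 1) ω')
      rw [yr_dep Φ o ℓ k i ω ω' fun c hc => hω c hc, yr_dep Φ o ℓ k (i + 1) ω ω' fun c hc => hω c hc])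
    (by
      intro ω ω' hω
      exact hω _ rfl)
  have h2 : PP.map g = (m (k + 1)).map (fun z => (pre z, suf z)) := by
    rw [hg]
    exact hpair i
  have h3 : PP.map (fun ω : Om => ω (i % ℓ, k)) = (volume : Measure unitInterval) :=
    Measure.infinitePi_map_eval (fun _ : ℕ × ℕ => (volume : Measure unitInterval)) (i % ℓ, k)
  rw [h2, h3] at h1
  have hΦ2 : Measurable fun p : (X × X) × unitInterval => (p.1, Φ k p.1 p.2) :=
    measurable_fst.prodMk (hD.meas k)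
  have h4 := hD.law k
  rw [← h1, Measure.map_map hΦ2 (hgm.prodMk (measurable_pi_apply _))] at h4
  rw [← h4]
  congr 1
  funext ω
  rw [hg]
  rfl

theorem tri_ae {X : Type} [MeasurableSpace X] [StandardBorelSpace X] [Nonempty X]
    {m : ℕ → Measure X} {pre suf : X → X} {o : X} {Φ : ℕ → X × X → unitInterval → X}
    (h : RH m pre suf o) (hD : Dis m pre suf Φ) {ℓ k : ℕ} (hT : TriLaw m pre suf Φ o ℓ k) (i : ℕ) :
    ∀ᵐ ω ∂PP, pre (Yr Φ o ℓ (k + 1) i ω) = Yr Φ o ℓ k i ω ∧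
      suf (Yr Φ o ℓ (k + 1) i ω) = Yr Φ o ℓ k (i + 1) ω := by
  have hYm := yr_meas hD.meas o ℓ
  have hDm : Measurable (fun z => (pre z, suf z)) := h.mpre.prodMk h.msuf
  have hms : MeasurableSet {p : (X × X) × X | pre p.2 = p.1.1 ∧ suf p.2 = p.1.2} :=
    (measurableSet_eq_fun (h.mpre.comp measurable_snd)
      (measurable_fst.comp measurable_fst)).inter
    (measurableSet_eq_fun (h.msuf.comp measurable_snd)
      (measurable_snd.comp measurable_fst))
  have h2 : ∀ᵐ p ∂((m (k + 1)).map (fun z => ((pre z, suf z), z))),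
      pre p.2 = p.1.1 ∧ suf p.2 = p.1.2 := by
    rw [ae_map_iff (hDm.prodMk measurable_id').aemeasurable hms]
    exact Filter.Eventually.of_forall (fun z => ⟨rfl, rfl⟩)
  rw [← hT i] at h2
  exact ae_of_ae_map
    (((hYm k i).prodMk (hYm k (i + 1))).prodMk (hYm (k + 1) i)).aemeasurable h2

theorem t_psi : S_psi := by
  intro X _ _ _ m pre suf o Φ h hD ℓ k hl hT
  induction k with
  | zero =>
    intro i
    refine Filter.Eventually.of_forall fun ω => ?_
    rfl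
  | succ k ih =>
    intro i
    have h1 := ih (fun j hj => hT j (by omega)) i
    have h2 := tri_ae h hD (hT k (by omega)) (i + 1)
    filter_upwards [h1, h2] with ω hω hω'
    show Φ (k + 1) (Yr Φ o ℓ (k + 1) i ω, Yr Φ o ℓ (k + 1) (i + 1) ω) (ω (i % ℓ, k + 1)) =
      Φ (k + 1) (Psi Φ o pre (k + 1) (pre (Yr Φ o ℓ (k + 1) (i + 1) ω)) (fun b => ω (i % ℓ, b)),
        Yr Φ o ℓ (k + 1) (i + 1) ω) (ω (i % ℓ, k + 1))
    rw [hω'.1, ← hω]

end Pool.Agent.Q151.SY
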